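import Pool.Agent.H95.NV.Targets1

/-!
# Row KDU of the board `nva_modules`: the data are unique
-/

set_option autoImplicit false

namespace Pool.Agent.H99.NV

open Pool.Agent.H95.NV NumberField

section
variable {k K : Type} [Field k] [NumberField k] [IsTotallyReal k] [Field K] [NumberField K]
    [Algebra k K] [Algebra.IsQuadraticExtension k K]

/-- `δ'` is a multiple of `δ` -/
theorem kdu_s (hCOO : T_COO) {f f' : Ideal (𝓞 k)} {D D' b b' : 𝓞 k} {δ δ' : K}
    (h : KD f D b δ) (h' : KD f' D' b' δ') :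
    ∃ s : k, s ≠ 0 ∧ δ' = algebraMap k K s * δ ∧ (D' : k) = s ^ 2 * (D : k) := by
  obtain ⟨c1, c2, -, -⟩ := hCOO k K D b δ h.pos h.sq
  obtain ⟨x, y, hxy⟩ := c1 δ'
  have inj : Function.Injective (algebraMap k K) := FaithfulSMul.algebraMap_injective k K
  obtain ⟨X, hX⟩ : ∃ X : k, X = x + y * b / 2 := ⟨_, rfl⟩
  obtain ⟨s, hs⟩ : ∃ s : k, s = y / 2 := ⟨_, rfl⟩
  have e1 : δ' = algebraMap k K X + algebraMap k K s * δ := by
    rw [hxy, hX, hs, w, map_add, map_div₀, map_div₀, map_mul, map_ofNat]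
    ring
  have e2 : algebraMap k K (X ^ 2 - s ^ 2 * D + D' - 2 * X * s * b) +
      algebraMap k K (4 * X * s) * w b δ = 0 := by
    have q1 := h.sq
    have q2 := h'.sq
    rw [e1] at q2
    simp only [map_add, map_sub, map_mul, map_pow, map_ofNat, w]
    linear_combination q2 - (algebraMap k K s) ^ 2 * q1
  obtain ⟨e3, e4⟩ := c2 _ _ e2
  have hv : Nonempty (InfinitePlace k) := inferInstance
  obtain ⟨v⟩ := hv
  have hs0 : s ≠ 0 := by
    intro h0
    rw [h0] at e3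
    have e5 : X ^ 2 + (D' : k) = 0 := by linear_combination e3
    have e6 := congrArg (Pool.Agent.H65.CM4.rv v) e5
    rw [map_add, map_pow, map_zero] at e6
    have := h'.pos v
    nlinarith [sq_nonneg (Pool.Agent.H65.CM4.rv v X)]
  have hX0 : X = 0 := by
    rcases mul_eq_zero.1 e4 with h1 | h1
    · rcases mul_eq_zero.1 h1 with h2 | h2
      · exact absurd h2 (by norm_num)
      · exact h2
    · exact absurd h1 hs0
  rw [hX0] at e1 e3
  refine ⟨s, hs0, by rw [e1, map_zero, zero_add], ?_⟩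
  linear_combination e3

/-- the inverse of the ideal in terms of the field -/
theorem kdu_fi (hCOO : T_COO) {f : Ideal (𝓞 k)} {D b : 𝓞 k} {δ : K} (h : KD f D b δ) (q : k) :
    q ∈ fi f ↔ ∃ (p : k) (t : 𝓞 K), (t : K) = algebraMap k K p + algebraMap k K q * δ / 2 := by
  obtain ⟨c1, c2, -, -⟩ := hCOO k K D b δ h.pos h.sq
  constructor
  · intro hq
    obtain ⟨t, ht⟩ := (h.int (algebraMap k K ((0 : 𝓞 k) : k) + algebraMap k K q * w b δ)).2
      ⟨0, q, hq, rfl⟩
    refine ⟨q * b / 2, t, ?_⟩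
    have z : ((0 : 𝓞 k) : k) = 0 := rfl
    rw [ht, w, z, map_zero, map_div₀, map_mul, map_ofNat]
    ring
  · rintro ⟨p, t, ht⟩
    obtain ⟨p', q', hq', e⟩ := (h.int (t : K)).1 ⟨t, rfl⟩
    have e2 : algebraMap k K ((p' : k) - p + q * b / 2) + algebraMap k K (q' - q) * w b δ = 0 := by
      rw [e] at ht
      simp only [map_add, map_sub, map_mul, map_div₀, map_ofNat, w] at ht ⊢
      linear_combination ht
    obtain ⟨-, e4⟩ := c2 _ _ e2
    rw [← sub_eq_zero.1 e4]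
    exact hq'

omit [IsTotallyReal k] in
theorem kdu_int (f : Ideal (𝓞 k)) (hf : f ≠ ⊥) (s : k)
    (hs : ∀ x : k, (∃ t ∈ f, (t : k) = x) → ∃ t ∈ f, (t : k) = s * x) :
    ∃ t : 𝓞 k, (t : k) = s := by
  have h1 : IsIntegral (𝓞 k) s := by
    refine isIntegral_of_smul_mem_submodule (Submodule.map (Algebra.linearMap (𝓞 k) k) f)
      ?_ ?_ s ?_
    · intro h0
      obtain ⟨a, ha, ha0⟩ := Submodule.exists_mem_ne_zero_of_ne_bot hf
      have : (Algebra.linearMap (𝓞 k) k) a ∈ Submodule.map (Algebra.linearMap (𝓞 k) k) f :=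
        Submodule.mem_map_of_mem ha
      rw [h0, Submodule.mem_bot] at this
      exact ha0 (FaithfulSMul.algebraMap_injective (𝓞 k) k (by simpa using this))
    · exact (IsNoetherian.noetherian f).map _
    · rintro n ⟨a, ha, rfl⟩
      obtain ⟨t, ht, e⟩ := hs (a : k) ⟨a, ha, rfl⟩
      exact ⟨t, ht, e⟩
  obtain ⟨t, ht⟩ := IsIntegrallyClosed.isIntegral_iff.1 h1
  exact ⟨t, ht⟩

end

theorem pf_KDU (hREP : T_REP) (hCOO : T_COO) (hFNV : T_FNV) : T_KDU := by
  intro k K _ _ _ _ _ _ _ f f' D D' b b' δ δ' h h'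
  obtain ⟨s, hs, e1, e2⟩ := kdu_s hCOO h h'
  have inj : Function.Injective (algebraMap k K) := FaithfulSMul.algebraMap_injective k K
  -- the inverse ideals
  have k1 : ∀ q : k, q ∈ fi f' ↔ q * s ∈ fi f := by
    intro q
    rw [kdu_fi hCOO h, kdu_fi hCOO h']
    have : algebraMap k K (q * s) * δ = algebraMap k K q * δ' := by
      rw [e1, map_mul]; ring
    rw [this]
  have d : ∀ (g : Ideal (𝓞 k)), g ≠ ⊥ → ∀ x : k,
      (∀ q ∈ fi g, ∃ t : 𝓞 k, (t : k) = q * x) ↔ ∃ t ∈ g, (t : k) = x := by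
    intro g hg x
    obtain ⟨-, -, -, -, -, h6⟩ := hFNV k g hg
    have h7 := h6 ⊤ x
    rw [Ideal.top_mul] at h7
    rw [← h7]
    simp
  have k2 : ∀ x : k, (∃ t ∈ f, (t : k) = x) ↔ ∃ t ∈ f', (t : k) = s * x := by
    intro x
    rw [← d f h.f_ne x, ← d f' h'.f_ne (s * x)]
    constructor
    · intro hx q hq
      obtain ⟨t, ht⟩ := hx (q * s) ((k1 q).1 hq)
      exact ⟨t, by rw [ht]; ring⟩
    · intro hx q hq
      obtain ⟨t, ht⟩ := hx (q / s) ((k1 (q / s)).2 (by rwa [div_mul_cancel₀ _ hs]))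
      exact ⟨t, by rw [ht]; field_simp⟩
  refine ⟨?_, ?_⟩
  · refine ((hREP k).2.2 f f' h.f_ne h'.f_ne).2 ⟨s⁻¹, inv_ne_zero hs, fun x => ?_⟩
    rw [k2 (s⁻¹ * x), mul_inv_cancel_left₀ hs]
  · intro hff
    subst hff
    obtain ⟨t, ht⟩ := kdu_int f h.f_ne s fun x hx => (k2 x).1 hx
    obtain ⟨t', ht'⟩ := kdu_int f h.f_ne s⁻¹ fun x hx => by
      rw [k2 (s⁻¹ * x), mul_inv_cancel_left₀ hs]
      exact hx
    have ht1 : t * t' = 1 := by
      apply FaithfulSMul.algebraMap_injective (𝓞 k) k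
      rw [map_mul, map_one]
      change (t : k) * (t' : k) = 1
      rw [ht, ht', mul_inv_cancel₀ hs]
    refine ⟨⟨t, t', ht1, by rw [mul_comm, ht1]⟩, ?_, ?_⟩
    · change δ' = algebraMap k K (t : k) * δ
      rw [ht, e1]
    · apply FaithfulSMul.algebraMap_injective (𝓞 k) k
      rw [map_mul, map_pow]
      change (D' : k) = (t : k) ^ 2 * (D : k)
      rw [ht, e2]

end Pool.Agent.H99.NV
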